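import Mathlib

/-!
# MP_fcd94d_an: the hypersurfaces `x ^ m * y = P (x, z)`
-/

namespace Pool.Agent.MP_fcd94d_an.KR

/-- entire maps -/
def Entire {V W : Type} [NormedAddCommGroup V] [NormedSpace ℂ V] [NormedAddCommGroup W]
    [NormedSpace ℂ W] (f : V → W) : Prop :=
  Differentiable ℂ f

/-- the function `f` is entire and its differential is nonzero at all points of its zero set -/
def SmoothZeros {V : Type} [NormedAddCommGroup V] [NormedSpace ℂ V] (f : V → ℂ) : Prop :=
  Entire f ∧ ∀ p, f p = 0 → fderiv ℂ f p ≠ 0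

/-- the map `F` is entire, and its differential kills no nonzero vector `v` which is tangent to the
zero set of `f` (at a point `p` with `f p = 0` these are the `v` killed by the differential of
`f`) -/
def ImmersesZeros {V W : Type} [NormedAddCommGroup V] [NormedSpace ℂ V] [NormedAddCommGroup W]
    [NormedSpace ℂ W] (f : V → ℂ) (F : V → W) : Prop :=
  Entire F ∧ ∀ p, f p = 0 → ∀ v, fderiv ℂ f p v = 0 → fderiv ℂ F p v = 0 → v = 0

/-- the function `x ^ m * y - P (x, z)` of `p = (x, y, z)`, where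
`P (x, z) = ∑ i < m, a_i z * x ^ i + x ^ m * R (x, z)` -/
noncomputable def eqn {k : ℕ} (m : ℕ) (a : ℕ → (Fin k → ℂ) → ℂ) (R : ℂ × (Fin k → ℂ) → ℂ)
    (p : ℂ × ℂ × (Fin k → ℂ)) : ℂ :=
  p.1 ^ m * p.2.1 - (∑ i ∈ Finset.range m, a i p.2.2 * p.1 ^ i + p.1 ^ m * R (p.1, p.2.2))

end Pool.Agent.MP_fcd94d_an.KR
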