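import Mathlib
import Pool.Agent.Lib.MP_fcd94d_an_KR.Defs

/-!
# MP_fcd94d_an: immersions of the hypersurfaces `x ^ m * y = P (x, z)` in every dimension
-/

namespace Pool.Agent.MP_fcd94d_an.KR

open Polynomial

section Algebra

variable {E : Type*} [CommRing E]

/-- If `α * p(0) + β * a0 = 1`, then `p` has an inverse in `E` modulo `X ^ n` and `a0 + X p`. -/
theorem unit_mod (n : ℕ) (a0 : E) (p : E[X]) (α β : E) (h : α * p.coeff 0 + β * a0 = 1) :
    ∃ (u : E) (A1 A2 : E[X]), C u * p = 1 + X ^ n * A1 + (C a0 + X * p) * A2 := by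
  set J : Ideal E[X] := Ideal.span {X ^ n, C a0 + X * p} with hJ
  set π : E[X] →+* E[X] ⧸ J := Ideal.Quotient.mk J with hπ
  have hx : π X ^ n = 0 := by
    rw [← map_pow, hπ, Ideal.Quotient.eq_zero_iff_mem]
    exact Ideal.subset_span (by simp)
  have ha0 : π (C a0) = -(π X * π p) := by
    have h1 : π (C a0 + X * p) = 0 := by
      rw [hπ, Ideal.Quotient.eq_zero_iff_mem]
      exact Ideal.subset_span (by simp)
    rw [map_add, map_mul] at h1
    exact eq_neg_of_add_eq_zero_left h1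
  have hsplit : ∀ r : E[X], π r = π (C (r.coeff 0)) + π X * π r.divX := by
    intro r
    have h1 : r = r.divX * X + C (r.coeff 0) := (divX_mul_X_add r).symm
    conv_lhs => rw [h1]
    rw [map_add, map_mul]
    ring
  -- `p` is invertible
  have hunit : IsUnit (π p) := by
    have h2 : π (C α) * π p = 1 + π X * (π (C β) * π p + π (C α) * π p.divX) := by
      have h3 : π (C (α * p.coeff 0 + β * a0)) = 1 := by rw [h, map_one, map_one]
      rw [C_add, C_mul, C_mul, map_add, map_mul, map_mul, ha0] at h3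
      have h4 := hsplit p
      calc π (C α) * π p = π (C α) * (π (C (p.coeff 0)) + π X * π p.divX) := by rw [← h4]
        _ = (π (C α) * π (C (p.coeff 0)) + π (C β) * -(π X * π p)) +
            π X * (π (C β) * π p + π (C α) * π p.divX) := by ring
        _ = _ := by rw [h3]
    have h5 : IsUnit (π (C α) * π p) := by
      rw [h2]
      apply IsNilpotent.isUnit_one_add
      exact ⟨n, by rw [mul_pow, hx, zero_mul]⟩
    exact isUnit_of_mul_isUnit_right h5
  obtain ⟨q, hq⟩ := hunit.exists_right_inv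
  have hxq : π X = π (C a0) * (-q) := by
    rw [ha0]
    calc π X = π X * (π p * q) := by rw [hq, mul_one]
      _ = _ := by ring
  have hsurj : ∀ j : ℕ, ∀ r : E[X] ⧸ J, ∃ (c : E) (r' : E[X] ⧸ J),
      r = π (C c) + π (C a0) ^ j * r' := by
    intro j
    induction j with
    | zero => intro r; exact ⟨0, r, by simp⟩
    | succ j ih =>
      intro r
      obtain ⟨c, r', hr⟩ := ih r
      obtain ⟨s, rfl⟩ := Ideal.Quotient.mk_surjective r'
      change r = π (C c) + π (C a0) ^ j * π s at hr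
      refine ⟨c + a0 ^ j * s.coeff 0, -q * π s.divX, ?_⟩
      rw [hr, hsplit s, hxq, C_add, C_mul, C_pow, map_add, map_mul, map_pow]
      ring
  obtain ⟨u, r', hu⟩ := hsurj n q
  have h0 : π (C a0) ^ n = 0 := by
    rw [ha0]
    have h1 : (-(π X * π p)) ^ n = (-1) ^ n * (π X ^ n * π p ^ n) := by ring
    rw [h1, hx]
    ring
  rw [h0, zero_mul, add_zero] at hu
  have h6 : π (C u * p - 1) = 0 := by
    rw [map_sub, map_mul, map_one, ← hu, mul_comm, hq, sub_self]
  rw [hπ, Ideal.Quotient.eq_zero_iff_mem, hJ, Ideal.mem_span_pair] at h6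
  obtain ⟨A1, A2, h7⟩ := h6
  exact ⟨u, A1, A2, by linear_combination -h7⟩

end Algebra

/-! ### Two entire functions -/

/-- `(exp (2 π i s) - 1) / s` -/
noncomputable def psi (s : ℂ) : ℂ :=
  dslope (fun s => Complex.exp (2 * Real.pi * Complex.I * s) - 1) 0 s

theorem psi_spec (s : ℂ) : s * psi s = Complex.exp (2 * Real.pi * Complex.I * s) - 1 := by
  have h := sub_smul_dslope (fun s => Complex.exp (2 * Real.pi * Complex.I * s) - 1) 0 s
  simpa [psi] using h

theorem psi_one : psi 1 = 0 := by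
  have h := psi_spec 1
  rw [one_mul, mul_one, Complex.exp_two_pi_mul_I, sub_self] at h
  exact h

theorem differentiable_dslope {f : ℂ → ℂ} (hf : Differentiable ℂ f) (c : ℂ) :
    Differentiable ℂ (dslope f c) := by
  have h := (Complex.differentiableOn_dslope (f := f) (c := c) (s := Set.univ)
    Filter.univ_mem).mpr hf.differentiableOn
  exact differentiableOn_univ.mp h

theorem differentiable_psi : Differentiable ℂ psi := by
  apply differentiable_dslope
  fun_prop

/-- `psi s / (s - 1)` -/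
noncomputable def gg (s : ℂ) : ℂ := dslope psi 1 s

theorem gg_spec (s : ℂ) : (s - 1) * gg s = psi s := by
  have h := sub_smul_dslope psi 1 s
  rw [psi_one, sub_zero] at h
  simpa [gg] using h

theorem differentiable_gg : Differentiable ℂ gg := differentiable_dslope differentiable_psi 1

theorem psi_deriv (s : ℂ) : psi s + s * deriv psi s =
    2 * Real.pi * Complex.I * Complex.exp (2 * Real.pi * Complex.I * s) := by
  have h1 : HasDerivAt (fun s => s * psi s) (1 * psi s + s * deriv psi s) s :=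
    (hasDerivAt_id s).mul (differentiable_psi s).hasDerivAt
  have h2 : HasDerivAt (fun s : ℂ => Complex.exp (2 * Real.pi * Complex.I * s) - 1)
      (Complex.exp (2 * Real.pi * Complex.I * s) * (2 * Real.pi * Complex.I)) s := by
    have h3 : HasDerivAt (fun s : ℂ => 2 * Real.pi * Complex.I * s) (2 * Real.pi * Complex.I) s := by
      simpa using (hasDerivAt_id s).const_mul (2 * Real.pi * Complex.I)
    exact (h3.cexp).sub_const 1
  have h4 : (fun s => s * psi s) = fun s : ℂ => Complex.exp (2 * Real.pi * Complex.I * s) - 1 := by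
    funext s; exact psi_spec s
  rw [h4] at h1
  have h5 := h1.unique h2
  rw [one_mul] at h5
  rw [h5]; ring

theorem psi_deriv_ne (s : ℂ) : psi s + s * deriv psi s ≠ 0 := by
  rw [psi_deriv]
  have := Real.pi_ne_zero
  simp [this, Complex.I_ne_zero, Complex.exp_ne_zero]

theorem gg_one : gg 1 ≠ 0 := by
  have h : gg 1 = deriv psi 1 := by simp [gg]
  have h2 := psi_deriv_ne 1
  rw [psi_one, zero_add, one_mul] at h2
  rw [h]; exact h2

/-! ### The ring of entire functions -/

/-- the entire functions on `ℂ ^ k` -/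
def Ent (k : ℕ) : Subring ((Fin k → ℂ) → ℂ) where
  carrier := {f | Differentiable ℂ f}
  mul_mem' := fun ha hb => by
    exact Differentiable.mul (show Differentiable ℂ _ from ha) hb
  one_mem' := differentiable_const 1
  add_mem' := fun ha hb => by
    exact Differentiable.add (show Differentiable ℂ _ from ha) hb
  zero_mem' := differentiable_const 0
  neg_mem' := fun ha => by
    exact Differentiable.neg (show Differentiable ℂ _ from ha)

/-- evaluation of the coefficients -/
noncomputable def phz {k : ℕ} (z : Fin k → ℂ) : Ent k →+* ℂ :=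
  (Pi.evalRingHom (fun _ => ℂ) z).comp (Ent k).subtype

theorem phz_apply {k : ℕ} (z : Fin k → ℂ) (f : Ent k) : phz z f = f.1 z := rfl

/-- evaluation -/
noncomputable def ev {k : ℕ} (A : (Ent k)[X]) (x : ℂ) (z : Fin k → ℂ) : ℂ := A.eval₂ (phz z) x

theorem ev_differentiable {k : ℕ} (A : (Ent k)[X]) :
    Differentiable ℂ (fun q : ℂ × (Fin k → ℂ) => ev A q.1 q.2) := by
  induction A using Polynomial.induction_on' with
  | add p q hp hq =>
    have h : (fun r : ℂ × (Fin k → ℂ) => ev (p + q) r.1 r.2) =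
        fun r => ev p r.1 r.2 + ev q r.1 r.2 := by
      funext r; simp [ev, eval₂_add]
    rw [h]; exact hp.add hq
  | monomial n a =>
    have h : (fun r : ℂ × (Fin k → ℂ) => ev (monomial n a) r.1 r.2) =
        fun r => a.1 r.2 * r.1 ^ n := by
      funext r; simp [ev, eval₂_monomial, phz_apply]
    rw [h]
    have ha : Differentiable ℂ a.1 := a.2
    exact (ha.comp differentiable_snd).mul (differentiable_fst.pow n)

/-! ### The hypersurface and the map -/

theorem main (k m : ℕ) (hm : 2 ≤ m) (a : ℕ → (Fin k → ℂ) → ℂ) (R : ℂ × (Fin k → ℂ) → ℂ)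
    (α β : (Fin k → ℂ) → ℂ) (ha : ∀ i, Differentiable ℂ (a i)) (hR : Differentiable ℂ R)
    (hα : Differentiable ℂ α) (hβ : Differentiable ℂ β)
    (h : ∀ z, α z * a 1 z + β z * a 0 z = 1) :
    ∃ G : ℂ × ℂ × (Fin k → ℂ) → ℂ, Differentiable ℂ G ∧
      ∀ p, eqn m a R p = 0 → ∀ v : ℂ × ℂ × (Fin k → ℂ),
        HasDerivAt (fun τ : ℂ => eqn m a R (p + τ • v)) 0 0 → v.2.2 = 0 →
        HasDerivAt (fun τ : ℂ => G (p + τ • v)) 0 0 → v = 0 := by
  obtain ⟨n, rfl⟩ : ∃ n, m = n + 1 := ⟨m - 1, by omega⟩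
  have hn : 1 ≤ n := by omega
  -- the polynomial `p_1`
  set b : ℕ → Ent k := fun i => ⟨a i, ha i⟩ with hb
  set P1 : (Ent k)[X] := ∑ i ∈ Finset.range n, C (b (i + 1)) * X ^ i with hP1
  have hP1ev : ∀ x z, ev P1 x z = ∑ i ∈ Finset.range n, a (i + 1) z * x ^ i := by
    intro x z
    simp [ev, hP1, eval₂_finsetSum, phz_apply, hb]
  have hcoeff : P1.coeff 0 = b 1 := by
    rw [hP1, finsetSum_coeff]
    rw [Finset.sum_eq_single 0]
    · simp
    · intro i _ hi
      simp [coeff_X_pow, hi.symm]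
    · intro h0
      exact absurd (Finset.mem_range.mpr (by omega)) h0
  obtain ⟨u, A1, A2, hu⟩ := unit_mod n (b 0) P1 ⟨α, hα⟩ ⟨β, hβ⟩ (by
    rw [hcoeff]
    apply Subtype.ext
    funext z
    exact h z)
  have huev : ∀ x z, u.1 z * ev P1 x z = 1 + x ^ n * ev A1 x z +
      (a 0 z + x * ev P1 x z) * ev A2 x z := by
    intro x z
    have := congrArg (fun A => ev A x z) hu
    simpa [ev, eval₂_mul, eval₂_add, phz_apply, hb] using this
  -- the functions
  set Y : ℂ × ℂ × (Fin k → ℂ) → ℂ := fun p => p.2.1 - R (p.1, p.2.2) with hY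
  set t : ℂ × ℂ × (Fin k → ℂ) → ℂ := fun p =>
    u.1 p.2.2 * ev P1 p.1 p.2.2 - u.1 p.2.2 * p.1 ^ n * Y p with ht
  set K : ℂ × ℂ × (Fin k → ℂ) → ℂ := fun p =>
    ev A1 p.1 p.2.2 + p.1 * Y p * ev A2 p.1 p.2.2 - u.1 p.2.2 * Y p with hK
  set S : ℂ × ℂ × (Fin k → ℂ) → ℂ := fun p => ∑ i ∈ Finset.range n, t p ^ i with hS
  set G : ℂ × ℂ × (Fin k → ℂ) → ℂ := fun p => K p * S p * gg (t p ^ n) with hG
  have hd1 : Differentiable ℂ (fun p : ℂ × ℂ × (Fin k → ℂ) => p.1) := differentiable_fst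
  have hd2 : Differentiable ℂ (fun p : ℂ × ℂ × (Fin k → ℂ) => p.2.2) :=
    differentiable_snd.comp differentiable_snd
  have hd12 : Differentiable ℂ (fun p : ℂ × ℂ × (Fin k → ℂ) => (p.1, p.2.2)) := hd1.prodMk hd2
  have hdu : Differentiable ℂ (fun p : ℂ × ℂ × (Fin k → ℂ) => u.1 p.2.2) :=
    (show Differentiable ℂ u.1 from u.2).comp hd2
  have hdev : ∀ A : (Ent k)[X], Differentiable ℂ
      (fun p : ℂ × ℂ × (Fin k → ℂ) => ev A p.1 p.2.2) := fun A =>
    (ev_differentiable A).comp hd12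
  have hdY : Differentiable ℂ Y :=
    (differentiable_fst.comp differentiable_snd).sub (hR.comp hd12)
  have hdt : Differentiable ℂ t := (hdu.mul (hdev P1)).sub ((hdu.mul (hd1.pow n)).mul hdY)
  have hdK : Differentiable ℂ K :=
    ((hdev A1).add ((hd1.mul hdY).mul (hdev A2))).sub (hdu.mul hdY)
  have hdS : Differentiable ℂ S := by
    rw [hS]
    exact Differentiable.fun_sum fun i _ => hdt.pow i
  have hdG : Differentiable ℂ G := (hdK.mul hdS).mul (differentiable_gg.comp (hdt.pow n))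
  have hda0 : Differentiable ℂ (fun p : ℂ × ℂ × (Fin k → ℂ) => a 0 p.2.2) := (ha 0).comp hd2
  -- the equation in terms of `Y`
  have hf : ∀ p, eqn (n + 1) a R p = p.1 ^ (n + 1) * Y p - (a 0 p.2.2 + p.1 * ev P1 p.1 p.2.2) := by
    intro p
    unfold eqn
    rw [hP1ev, Finset.sum_range_succ']
    simp only [hY, pow_zero, mul_one]
    rw [Finset.mul_sum]
    have : ∑ i ∈ Finset.range n, a (i + 1) p.2.2 * p.1 ^ (i + 1) =
        ∑ i ∈ Finset.range n, p.1 * (a (i + 1) p.2.2 * p.1 ^ i) :=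
      Finset.sum_congr rfl fun i _ => by ring
    rw [this]
    ring
  -- identities
  have id1 : ∀ p, p.1 * t p = -(u.1 p.2.2 * (a 0 p.2.2 + eqn (n + 1) a R p)) := by
    intro p
    rw [hf]
    simp only [ht]
    ring
  have id2 : ∀ p, t p = 1 + p.1 ^ n * K p - eqn (n + 1) a R p * ev A2 p.1 p.2.2 := by
    intro p
    rw [hf]
    simp only [ht, hK]
    have := huev p.1 p.2.2
    linear_combination this
  have id3 : ∀ p, p.1 ^ n * G p = psi (t p ^ n) +
      eqn (n + 1) a R p * (ev A2 p.1 p.2.2 * S p * gg (t p ^ n)) := by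
    intro p
    have h1 := id2 p
    have h2 : (t p - 1) * S p = t p ^ n - 1 := by
      simp only [hS]
      rw [mul_comm]
      exact geom_sum_mul (t p) n
    have h3 := gg_spec (t p ^ n)
    simp only [hG]
    linear_combination (-(S p) * gg (t p ^ n)) * h1 + gg (t p ^ n) * h2 + h3
  refine ⟨G, hdG, ?_⟩
  intro p hp v hfv hv2 hGv
  -- restriction to the line
  have hline : Differentiable ℂ (fun τ : ℂ => p + τ • v) := by fun_prop
  have hz : ∀ τ : ℂ, (p + τ • v).2.2 = p.2.2 := by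
    intro τ
    simp [hv2]
  have hx1 : HasDerivAt (fun τ : ℂ => (p + τ • v).1) v.1 0 := by
    have h1 : (fun τ : ℂ => (p + τ • v).1) = fun τ : ℂ => p.1 + τ * v.1 := by
      funext τ; simp
    rw [h1]
    simpa using ((hasDerivAt_id (0 : ℂ)).mul_const v.1).const_add p.1
  obtain ⟨t1, ht1⟩ : ∃ t1, HasDerivAt (fun τ : ℂ => t (p + τ • v)) t1 0 :=
    ⟨_, ((hdt.comp hline) 0).hasDerivAt⟩
  have hp0 : p + (0 : ℂ) • v = p := by simp
  -- first relation
  have r1 : v.1 * t p + p.1 * t1 = 0 := by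
    have h1 := hx1.mul ht1
    have h2 : HasDerivAt (fun τ : ℂ => -(u.1 p.2.2 * (a 0 p.2.2 + eqn (n + 1) a R (p + τ • v))))
        (-(u.1 p.2.2 * 0)) 0 := ((hfv.const_add _).const_mul _).neg
    have h3 : ((fun τ : ℂ => (p + τ • v).1) * fun τ : ℂ => t (p + τ • v)) =
        fun τ : ℂ => -(u.1 p.2.2 * (a 0 p.2.2 + eqn (n + 1) a R (p + τ • v))) := by
      funext τ
      have := id1 (p + τ • v)
      rw [hz τ] at this
      exact this
    rw [h3] at h1
    have h4 := h1.unique h2
    rw [hp0] at h4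
    rw [h4]; ring
  -- second relation
  have r2 : (n : ℂ) * p.1 ^ (n - 1) * v.1 * G p = deriv psi (t p ^ n) * (n * t p ^ (n - 1) * t1) := by
    have h1 : HasDerivAt (fun τ : ℂ => (p + τ • v).1 ^ n * G (p + τ • v))
        ((n : ℂ) * p.1 ^ (n - 1) * v.1 * G p + p.1 ^ n * 0) 0 := by
      have h2 := (hx1.pow n).mul hGv
      simp only [Pi.pow_apply, hp0] at h2
      exact h2
    have h3 : HasDerivAt (fun τ : ℂ => psi (t (p + τ • v) ^ n))
        (deriv psi (t p ^ n) * (n * t p ^ (n - 1) * t1)) 0 := by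
      have h4 := ht1.pow n
      rw [hp0] at h4
      have h5 : HasDerivAt psi (deriv psi (t (p + (0 : ℂ) • v) ^ n)) (t (p + (0 : ℂ) • v) ^ n) :=
        (differentiable_psi _).hasDerivAt
      have h6 := HasDerivAt.comp (0 : ℂ) h5 h4
      rw [hp0] at h6
      exact h6
    obtain ⟨B1, hB1⟩ : ∃ B1, HasDerivAt (fun τ : ℂ => ev A2 (p + τ • v).1 (p + τ • v).2.2 *
        S (p + τ • v) * gg (t (p + τ • v) ^ n)) B1 0 := by
      have h4 : Differentiable ℂ (fun q : ℂ × ℂ × (Fin k → ℂ) =>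
          ev A2 q.1 q.2.2 * S q * gg (t q ^ n)) :=
        ((hdev A2).mul hdS).mul (differentiable_gg.comp (hdt.pow n))
      exact ⟨_, ((h4.comp hline) 0).hasDerivAt⟩
    have h7 := h3.add (hfv.mul hB1)
    have h8 : (fun τ : ℂ => psi (t (p + τ • v) ^ n)) + ((fun τ : ℂ => eqn (n + 1) a R (p + τ • v)) *
        fun τ : ℂ => ev A2 (p + τ • v).1 (p + τ • v).2.2 *
        S (p + τ • v) * gg (t (p + τ • v) ^ n)) =
        fun τ : ℂ => (p + τ • v).1 ^ n * G (p + τ • v) := by
      funext τ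
      exact (id3 (p + τ • v)).symm
    rw [h8] at h7
    have h9 := h1.unique h7
    rw [hp0, hp] at h9
    linear_combination h9
  -- the first coordinate
  have hWp : p.1 ^ n * G p = psi (t p ^ n) := by
    rw [id3 p, hp, zero_mul, add_zero]
  have hv1 : v.1 = 0 := by
    have h1 : (n : ℂ) * v.1 * (psi (t p ^ n) + t p ^ n * deriv psi (t p ^ n)) = 0 := by
      have e1 : p.1 ^ n = p.1 ^ (n - 1) * p.1 := by
        rw [← pow_succ]; congr 1; omega
      have e2 : t p ^ n = t p ^ (n - 1) * t p := by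
        rw [← pow_succ]; congr 1; omega
      rw [e1] at hWp
      have h2 : (n : ℂ) * v.1 * psi (t p ^ n) =
          p.1 * (deriv psi (t p ^ n) * (n * t p ^ (n - 1) * t1)) := by
        rw [← hWp, ← r2]; ring
      have h3 : t p ^ n * deriv psi (t p ^ n) = t p ^ (n - 1) * t p * deriv psi (t p ^ n) := by
        rw [← e2]
      rw [mul_add, h2, h3]
      linear_combination ((n : ℂ) * t p ^ (n - 1) * deriv psi (t p ^ n)) * r1
    rcases mul_eq_zero.mp h1 with h2 | h2
    · rcases mul_eq_zero.mp h2 with h3 | h3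
      · exact absurd (by exact_mod_cast h3 : n = 0) (by omega)
      · exact h3
    · exact absurd h2 (psi_deriv_ne _)
  have hx : ∀ τ : ℂ, (p + τ • v).1 = p.1 := by
    intro τ
    simp [hv1]
  have hYline : ∀ τ : ℂ, Y (p + τ • v) = Y p + τ * v.2.1 := by
    intro τ
    simp only [hY]
    rw [hx τ, hz τ]
    simp
    ring
  have hv21 : v.2.1 = 0 := by
    by_cases hx0 : p.1 = 0
    · -- the exceptional fibre
      have hu1 : u.1 p.2.2 * ev P1 0 p.2.2 = 1 := by
        have h1 := id2 p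
        rw [hp, hx0, zero_pow (by omega : n ≠ 0)] at h1
        simp only [ht, hx0, zero_pow (by omega : n ≠ 0)] at h1
        linear_combination h1
      have hu0 : u.1 p.2.2 ≠ 0 := left_ne_zero_of_mul (by rw [hu1]; exact one_ne_zero)
      have htl : ∀ τ : ℂ, t (p + τ • v) = 1 := by
        intro τ
        simp only [ht]
        rw [hx τ, hz τ, hx0, zero_pow (by omega : n ≠ 0)]
        linear_combination hu1
      have hGl : ∀ τ : ℂ, G (p + τ • v) = (ev A1 0 p.2.2 - u.1 p.2.2 * (Y p + τ * v.2.1)) *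
          n * gg 1 := by
        intro τ
        simp only [hG, hK, hS]
        rw [htl τ, hx τ, hz τ, hYline τ, hx0]
        simp
      have h1 : HasDerivAt (fun τ : ℂ => G (p + τ • v)) (-(u.1 p.2.2 * v.2.1) * n * gg 1) 0 := by
        have h2 : (fun τ : ℂ => G (p + τ • v)) = fun τ : ℂ =>
            (ev A1 0 p.2.2 - u.1 p.2.2 * (Y p + τ * v.2.1)) * n * gg 1 := funext hGl
        rw [h2]
        have h3 : HasDerivAt (fun τ : ℂ => ev A1 0 p.2.2 - u.1 p.2.2 * (Y p + τ * v.2.1))
            (-(u.1 p.2.2 * v.2.1)) 0 := by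
          have h4 := ((((hasDerivAt_id (0 : ℂ)).mul_const v.2.1).const_add (Y p)).const_mul
            (u.1 p.2.2)).const_sub (ev A1 0 p.2.2)
          simpa using h4
        exact (h3.mul_const _).mul_const _
      have h5 := h1.unique hGv
      have hn0 : (n : ℂ) ≠ 0 := by
        have : n ≠ 0 := by omega
        exact_mod_cast this
      have h6 : u.1 p.2.2 * v.2.1 * (n * gg 1) = 0 := by linear_combination -h5
      rcases mul_eq_zero.mp h6 with h7 | h7
      · exact (mul_eq_zero.mp h7).resolve_left hu0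
      · exact absurd h7 (mul_ne_zero hn0 gg_one)
    · have h1 : HasDerivAt (fun τ : ℂ => eqn (n + 1) a R (p + τ • v)) (p.1 ^ (n + 1) * v.2.1) 0 := by
        have h2 : (fun τ : ℂ => eqn (n + 1) a R (p + τ • v)) = fun τ : ℂ =>
            p.1 ^ (n + 1) * (Y p + τ * v.2.1) - (a 0 p.2.2 + p.1 * ev P1 p.1 p.2.2) := by
          funext τ
          rw [hf, hx τ, hz τ, hYline τ]
        rw [h2]
        have h4 := ((((hasDerivAt_id (0 : ℂ)).mul_const v.2.1).const_add (Y p)).const_mul
            (p.1 ^ (n + 1))).sub_const (a 0 p.2.2 + p.1 * ev P1 p.1 p.2.2)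
        simpa using h4
      have h5 := h1.unique hfv
      exact (mul_eq_zero.mp h5).resolve_left (pow_ne_zero _ hx0)
  exact Prod.ext hv1 (Prod.ext hv21 hv2)

theorem differentiable_eqn {k : ℕ} (m : ℕ) {a : ℕ → (Fin k → ℂ) → ℂ} {R : ℂ × (Fin k → ℂ) → ℂ}
    (ha : ∀ i, Differentiable ℂ (a i)) (hR : Differentiable ℂ R) :
    Differentiable ℂ (eqn m a R) := by
  have hd1 : Differentiable ℂ (fun p : ℂ × ℂ × (Fin k → ℂ) => p.1) := differentiable_fst
  have hd2 : Differentiable ℂ (fun p : ℂ × ℂ × (Fin k → ℂ) => p.2.2) :=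
    differentiable_snd.comp differentiable_snd
  have hd12 : Differentiable ℂ (fun p : ℂ × ℂ × (Fin k → ℂ) => (p.1, p.2.2)) := hd1.prodMk hd2
  have h1 : Differentiable ℂ (fun p : ℂ × ℂ × (Fin k → ℂ) =>
      ∑ i ∈ Finset.range m, a i p.2.2 * p.1 ^ i) :=
    Differentiable.fun_sum fun i _ => ((ha i).comp hd2).mul (hd1.pow i)
  exact ((hd1.pow m).mul (differentiable_fst.comp differentiable_snd)).sub
    (h1.add ((hd1.pow m).mul (hR.comp hd12)))

/-- `M` is smooth -/
theorem smooth {k : ℕ} (m : ℕ) (hm : 2 ≤ m) {a : ℕ → (Fin k → ℂ) → ℂ}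
    {R : ℂ × (Fin k → ℂ) → ℂ} {α β : (Fin k → ℂ) → ℂ}
    (ha : ∀ i, Differentiable ℂ (a i)) (hR : Differentiable ℂ R)
    (h : ∀ z, α z * a 1 z + β z * a 0 z = 1) (p : ℂ × ℂ × (Fin k → ℂ)) (hp : eqn m a R p = 0) :
    fderiv ℂ (eqn m a R) p ≠ 0 := by
  intro h0
  have hd := differentiable_eqn m ha hR
  have hz : ∀ v : ℂ × ℂ × (Fin k → ℂ), HasDerivAt (fun τ : ℂ => eqn m a R (p + τ • v)) 0 0 := by
    intro v
    have h1 : HasFDerivAt (eqn m a R) (fderiv ℂ (eqn m a R) p) (p + (0 : ℂ) • v) := by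
      simpa using (hd p).hasFDerivAt
    have h2 : HasDerivAt (fun τ : ℂ => p + τ • v) v 0 := by
      simpa using ((hasDerivAt_id (0 : ℂ)).smul_const v).const_add p
    have h3 := h1.comp_hasDerivAt (0 : ℂ) h2
    rw [h0] at h3
    exact h3
  by_cases hx0 : p.1 = 0
  · -- the derivative with respect to `x` is `- a_1`
    have ha0 : a 0 p.2.2 = 0 := by
      unfold eqn at hp
      rw [hx0, zero_pow (by omega : m ≠ 0), zero_mul, zero_mul, add_zero,
        Finset.sum_eq_single 0] at hp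
      · simpa using hp
      · intro i _ hi
        rw [zero_pow hi, mul_zero]
      · intro hc
        exact absurd (Finset.mem_range.mpr (by omega)) hc
    have ha1 : a 1 p.2.2 ≠ 0 := by
      intro hc
      have := h p.2.2
      rw [ha0, hc] at this
      simp at this
    have h1 := hz (1, 0, 0)
    have h2 : HasDerivAt (fun τ : ℂ => eqn m a R (p + τ • ((1 : ℂ), (0 : ℂ), (0 : Fin k → ℂ))))
        (-(a 1 p.2.2)) 0 := by
      have h3 : (fun τ : ℂ => eqn m a R (p + τ • ((1 : ℂ), (0 : ℂ), (0 : Fin k → ℂ)))) =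
          fun τ : ℂ => τ ^ m * (p.2.1 - R (τ, p.2.2)) -
            ∑ i ∈ Finset.range m, a i p.2.2 * τ ^ i := by
        funext τ
        unfold eqn
        simp only [Prod.smul_mk, smul_eq_mul, mul_one, smul_zero, Prod.fst_add, Prod.snd_add,
          add_zero, hx0, zero_add]
        ring
      rw [h3]
      have hRd : HasDerivAt (fun τ : ℂ => p.2.1 - R (τ, p.2.2))
          (deriv (fun τ : ℂ => p.2.1 - R (τ, p.2.2)) 0) 0 := by
        apply DifferentiableAt.hasDerivAt
        have : Differentiable ℂ (fun τ : ℂ => p.2.1 - R (τ, p.2.2)) :=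
          (differentiable_const _).sub
            (hR.comp (differentiable_id.prodMk (differentiable_const _)))
        exact this 0
      have h4 := ((hasDerivAt_id (0 : ℂ)).pow m).mul hRd
      have h5 : HasDerivAt (fun τ : ℂ => ∑ i ∈ Finset.range m, a i p.2.2 * τ ^ i)
          (∑ i ∈ Finset.range m, a i p.2.2 * (i * (0 : ℂ) ^ (i - 1) * 1)) 0 := by
        apply HasDerivAt.fun_sum
        intro i _
        exact ((hasDerivAt_id (0 : ℂ)).pow i).const_mul _
      have h6 : ∑ i ∈ Finset.range m, a i p.2.2 * (i * (0 : ℂ) ^ (i - 1) * 1) = a 1 p.2.2 := by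
        rw [Finset.sum_eq_single 1]
        · simp
        · intro i _ hi
          rcases Nat.eq_zero_or_pos i with h7 | h7
          · simp [h7]
          · rw [zero_pow (by omega : i - 1 ≠ 0)]
            simp
        · intro hc
          exact absurd (Finset.mem_range.mpr (by omega)) hc
      rw [h6] at h5
      have h7 := h4.sub h5
      have h8 : ((m : ℂ) * id (0 : ℂ) ^ (m - 1) * 1) * (p.2.1 - R (0, p.2.2)) +
          (id ^ m) (0 : ℂ) * deriv (fun τ : ℂ => p.2.1 - R (τ, p.2.2)) 0 - a 1 p.2.2 =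
          -(a 1 p.2.2) := by
        have e1 : id (0 : ℂ) ^ (m - 1) = 0 := by
          rw [id, zero_pow (by omega : m - 1 ≠ 0)]
        have e2 : (id ^ m) (0 : ℂ) = 0 := by
          rw [Pi.pow_apply, id, zero_pow (by omega : m ≠ 0)]
        rw [e1, e2]
        ring
      rw [h8] at h7
      exact h7
    have h9 := h2.unique h1
    exact ha1 (neg_eq_zero.mp h9)
  · -- the derivative with respect to `y` is `x ^ m`
    have h1 := hz (0, 1, 0)
    have h2 : HasDerivAt (fun τ : ℂ => eqn m a R (p + τ • ((0 : ℂ), (1 : ℂ), (0 : Fin k → ℂ))))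
        (p.1 ^ m) 0 := by
      have h3 : (fun τ : ℂ => eqn m a R (p + τ • ((0 : ℂ), (1 : ℂ), (0 : Fin k → ℂ)))) =
          fun τ : ℂ => p.1 ^ m * (p.2.1 + τ) -
            (∑ i ∈ Finset.range m, a i p.2.2 * p.1 ^ i + p.1 ^ m * R (p.1, p.2.2)) := by
        funext τ
        unfold eqn
        simp only [Prod.smul_mk, smul_eq_mul, mul_one, mul_zero, smul_zero, Prod.fst_add,
          Prod.snd_add, add_zero]
      rw [h3]
      simpa using (((hasDerivAt_id (0 : ℂ)).const_add p.2.1).const_mul (p.1 ^ m)).sub_const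
        (∑ i ∈ Finset.range m, a i p.2.2 * p.1 ^ i + p.1 ^ m * R (p.1, p.2.2))
    exact pow_ne_zero m hx0 (h2.unique h1)

theorem final (k m : ℕ) (hm : 2 ≤ m) (a : ℕ → (Fin k → ℂ) → ℂ) (R : ℂ × (Fin k → ℂ) → ℂ)
    (α β : (Fin k → ℂ) → ℂ) (ha : ∀ i, Differentiable ℂ (a i)) (hR : Differentiable ℂ R)
    (hα : Differentiable ℂ α) (hβ : Differentiable ℂ β)
    (h : ∀ z, α z * a 1 z + β z * a 0 z = 1) :
    Differentiable ℂ (eqn m a R) ∧ (∀ p, eqn m a R p = 0 → fderiv ℂ (eqn m a R) p ≠ 0) ∧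
    ∃ F : ℂ × ℂ × (Fin k → ℂ) → (Fin k → ℂ) × ℂ, Differentiable ℂ F ∧
      ∀ p, eqn m a R p = 0 →
        ∀ v, fderiv ℂ (eqn m a R) p v = 0 → fderiv ℂ F p v = 0 → v = 0 := by
  refine ⟨differentiable_eqn m ha hR, smooth m hm ha hR h, ?_⟩
  obtain ⟨G, hG, hmain⟩ := main k m hm a R α β ha hR hα hβ h
  have hd2 : Differentiable ℂ (fun p : ℂ × ℂ × (Fin k → ℂ) => p.2.2) :=
    differentiable_snd.comp differentiable_snd
  refine ⟨fun p => (p.2.2, G p), hd2.prodMk hG, ?_⟩
  intro p hp v hv hF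
  have hline : HasDerivAt (fun τ : ℂ => p + τ • v) v 0 := by
    simpa using ((hasDerivAt_id (0 : ℂ)).smul_const v).const_add p
  have h1 : HasDerivAt (fun τ : ℂ => eqn m a R (p + τ • v)) 0 0 := by
    have h2 : HasFDerivAt (eqn m a R) (fderiv ℂ (eqn m a R) p) (p + (0 : ℂ) • v) := by
      simpa using (differentiable_eqn m ha hR p).hasFDerivAt
    have h3 := h2.comp_hasDerivAt (0 : ℂ) hline
    rw [hv] at h3
    exact h3
  have h2 : HasFDerivAt (fun p : ℂ × ℂ × (Fin k → ℂ) => (p.2.2, G p))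
      ((fderiv ℂ (fun p : ℂ × ℂ × (Fin k → ℂ) => p.2.2) p).prod (fderiv ℂ G p)) p :=
    (hd2 p).hasFDerivAt.prodMk (hG p).hasFDerivAt
  rw [h2.fderiv] at hF
  have h3 := congrArg Prod.fst hF
  have h4 := congrArg Prod.snd hF
  simp only [ContinuousLinearMap.prod_apply, Prod.fst_zero, Prod.snd_zero] at h3 h4
  have h5 : v.2.2 = 0 := by
    have h6 : HasFDerivAt (fun p : ℂ × ℂ × (Fin k → ℂ) => p.2.2)
        ((ContinuousLinearMap.snd ℂ ℂ (Fin k → ℂ)).comp
          (ContinuousLinearMap.snd ℂ ℂ (ℂ × (Fin k → ℂ)))) p :=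
      ((ContinuousLinearMap.snd ℂ ℂ (Fin k → ℂ)).comp
          (ContinuousLinearMap.snd ℂ ℂ (ℂ × (Fin k → ℂ)))).hasFDerivAt
    rw [h6.fderiv] at h3
    exact h3
  have h6 : HasDerivAt (fun τ : ℂ => G (p + τ • v)) 0 0 := by
    have h7 : HasFDerivAt G (fderiv ℂ G p) (p + (0 : ℂ) • v) := by
      simpa using (hG p).hasFDerivAt
    have h8 := h7.comp_hasDerivAt (0 : ℂ) hline
    rw [h4] at h8
    exact h8
  exact hmain p hp v h1 h5 h6

end Pool.Agent.MP_fcd94d_an.KR
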